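import Pool.Agent.Results.MP_b525bf_ag.DeterminantalKernels
import Pool.Agent.P8H16.LB.Base

/-!
MP_3029eb_ag: local uniformization, in all dimensions, of the local rings of the domains which are
smooth over `B ⊗ A`, where `B` is an arbitrary regular noetherian algebra over the field `k` of
characteristic `p` (for example a ring of formal or convergent power series) and `Spec A` is the
quotient of a generic determinantal variety `X_s` (the `n × m`-matrices of rank at most `s`) by the
product `(GL_n)_r × (GL_m)_r'` of Frobenius kernels, acting by left and right multiplication.

Steps: the resolution of `Spec A` (starting file `MP_b525bf_ag.DeterminantalKernels`) and the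
valuative criterion give, for every valuation ring `V` of a field `K` which contains the domain `E`,
a smooth `k`-algebra `D` between `A` and `V ∩ Frac A`. New (`Pool.Agent.P8H16.LB`): the ring
`T = (B ⊗ D) ⊗_{B ⊗ A} E` is regular, since it is smooth over `B`; it is contained in `K`, since `E` is
flat over `B ⊗ A`, so that the elements of `A` are regular in `T`; and the local ring of the algebra
which is generated by `T` over the local ring `R` of `E` at the centre of `V` is a local ring of `T`.
-/

set_option autoImplicit false

open AlgebraicGeometry CategoryTheory TensorProduct Pool.Agent.H920R2 Pool.Agent.H519R3.RS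
  Pool.Agent.Results.MP_b525bf_ag.DeterminantalKernels

namespace Pool.Agent.Results.MP_3029eb_ag.FrobeniusKernelsRelative

/-- Let `k` be a field of characteristic `p`, `s ≤ n`, `s ≤ m` and `r' ≤ r`. Let `A` be the ring of
the functions on the variety `X_s` of the `n × m`-matrices of rank at most `s` over `k` which are
invariant under the product `(GL_n)_r × (GL_m)_r'` of the Frobenius kernels, acting by left and right
multiplication. Let `B` be a regular noetherian `k`-algebra and `E` a domain which is smooth over
`B ⊗ A`. Then every local ring `R` of `E` admits local uniformization, at all valuations. -/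
theorem result (p : ℕ) [Fact p.Prime] (k : Type) [Field k] [CharP k p] (n m s r r' : ℕ)
    (hsn : s ≤ n) (hsm : s ≤ m) (hr : r' ≤ r)
    (B : Type) [CommRing B] [IsRegularRing B] [Algebra k B]
    (E : Type) [CommRing E] [IsDomain E]
    [Algebra (B ⊗[k] invariants k n m s (p ^ r) (p ^ r')) E]
    [Algebra.Smooth (B ⊗[k] invariants k n m s (p ^ r) (p ^ r')) E]
    (P : Ideal E) [P.IsPrime] (R : Type) [CommRing R] [IsLocalRing R] [Algebra E R]
    [IsLocalization.AtPrime R P] : AdmitsLU R := by
  have h : HasResolution (X := Spec (CommRingCat.of (invariants k n m s (p ^ r) (p ^ r'))))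
      (Spec.map (CommRingCat.ofHom (algebraMap k (invariants k n m s (p ^ r) (p ^ r'))))) :=
    Pool.Agent.Y212.Dk.hasResolutionD (p := p) (k := k) hr hsn hsm
  exact Pool.Agent.P8H16.LB.admitsLU_baseChange (k := k)
    (A := invariants k n m s (p ^ r) (p ^ r')) (B := B) h P R

end Pool.Agent.Results.MP_3029eb_ag.FrobeniusKernelsRelative
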