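import Pool.Agent.Results.MP_b525bf_ag.WreathQuotients
import Pool.Agent.P8H16.LB.Base

/-!
MP_3029eb_ag: local uniformization, in all dimensions, of the local rings of the domains which are
smooth over `B ⊗ (A ⊗ ... ⊗ A)^G`, where `B` is an arbitrary regular noetherian algebra over the field
`k` of characteristic `p` (for example a ring of formal or convergent power series), `Spec A` is an
affine variety over `k` which is smooth or has a smooth blowing-up, and `G` is a Sylow `p`-subgroup
of the symmetric group which permutes the factors, or is obtained from cyclic permutation groups of
orders dividing `p ^ 2 * m` by direct and wreath products (`k` contains a primitive `m`-th root of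
unity).

Steps: the resolution of the quotient `Spec C` (starting file `MP_b525bf_ag.WreathQuotients`) and
the valuative criterion give, for every valuation ring `V` of a field `K` which contains the domain
`E`, a smooth `k`-algebra `D` between `C` and `V ∩ Frac C`. New (`Pool.Agent.P8H16.LB`): the ring
`T = (B ⊗ D) ⊗_{B ⊗ C} E` is regular, since it is smooth over `B`; it is contained in `K`, since `E` is
flat over `B ⊗ C`, so that the elements of `C` are regular in `T`; and the local ring of the algebra
which is generated by `T` over the local ring `R` of `E` at the centre of `V` is a local ring of `T`.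
-/

set_option autoImplicit false

open TensorProduct Pool.Agent.H519R3.RS Pool.Agent.Results.MP_b525bf_ag.WreathQuotients

namespace Pool.Agent.Results.MP_3029eb_ag.PermutationQuotientsRelative

/-- Let `p` be a prime, `k` a field of characteristic `p` and `Spec A` an affine variety over `k` which
has a resolution of singularities by the blowing-up of an ideal, for instance a smooth affine
variety. Let `G` be a group of permutations of `1, …, n`, and suppose that

* `G` is a Sylow `p`-subgroup of the symmetric group, or
* `G` is obtained by direct products and wreath products from cyclic permutation groups of orders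
  dividing `p ^ 2 * m`, and `k` contains a primitive `m`-th root of unity.

Suppose that `k` is algebraically closed or that the power `A ⊗ ... ⊗ A` is a domain. Let `C` be the
ring of the elements of this power which are invariant under `G`, let `B` be a regular noetherian
`k`-algebra and `E` a domain which is smooth over `B ⊗ C`. Then every local ring `R` of `E` admits
local uniformization, at all valuations. -/
theorem result (p : ℕ) [Fact p.Prime] (k : Type) [Field k] [CharP k p] (A : Type)
    [CommRing A] [IsDomain A] [Algebra k A] [Algebra.FiniteType k A] (hA : HasSmoothBlowUp k A)
    (n : ℕ) (hdom : IsAlgClosed k ∨ IsDomain (⨂[k] _ : Fin n, A))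
    (G : Subgroup (Equiv.Perm (Fin n)))
    (hG : (∃ S : Sylow p (Equiv.Perm (Fin n)), G = S) ∨
      ∃ (m : ℕ) (ω : k), 0 < m ∧ IsPrimitiveRoot ω m ∧ IsTower (p ^ 2 * m) (Fin n) G)
    (B : Type) [CommRing B] [IsRegularRing B] [Algebra k B]
    (E : Type) [CommRing E] [IsDomain E] [Algebra (B ⊗[k] invariants k A G) E]
    [Algebra.Smooth (B ⊗[k] invariants k A G) E]
    (P : Ideal E) [P.IsPrime] (R : Type) [CommRing R] [IsLocalRing R] [Algebra E R]
    [IsLocalization.AtPrime R P] : AdmitsLU R := by
  have hdomB : IsDomain (⨂[k] _ : Fin n, A) := by
    rcases hdom with h | h
    · exact Pool.Agent.H920R2.isDomain_pi n fun _ => A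
    · exact h
  exact Pool.Agent.P8H16.LB.admitsLU_baseChange (k := k) (A := invariants k A G) (B := B)
    (Pool.Agent.Results.MP_b525bf_ag.WreathQuotients.result p k A hA n hdom G hG).2 P R

end Pool.Agent.Results.MP_3029eb_ag.PermutationQuotientsRelative
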