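import Pool.Agent.Results.MP_b525bf_ag.UnipotentKernels
import Pool.Agent.P8H16.LB.Base

/-!
MP_3029eb_ag: local uniformization, in all dimensions, of the local rings of the domains which are
smooth over `B ⊗ A`, where `B` is an arbitrary regular noetherian algebra over the field `k` of
characteristic `p` (for example a ring of formal or convergent power series) and `Spec A` is the
quotient of the space of `n × m`-matrices, `n ≤ m`, by an infinitesimal group scheme of block upper
triangular matrices `g` with `g i j ^ (p ^ r i j) = δ i j`, where the heights `r i j` do not decrease
along the rows; for example by the Frobenius kernels of the unipotent radicals of the parabolic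
subgroups of `GL_n` and of the group of unitriangular matrices.

Steps: the resolution of `Spec A` (starting file `MP_b525bf_ag.UnipotentKernels`) and the valuative
criterion give, for every valuation ring `V` of a field `K` which contains the domain `E`, a smooth
`k`-algebra `D` between `A` and `V ∩ Frac A`. New (`Pool.Agent.P8H16.LB`): the ring
`T = (B ⊗ D) ⊗_{B ⊗ A} E` is regular, since it is smooth over `B`; it is contained in `K`, since `E` is
flat over `B ⊗ A`, so that the elements of `A` are regular in `T`; and the local ring of the algebra
which is generated by `T` over the local ring `R` of `E` at the centre of `V` is a local ring of `T`.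
-/

set_option autoImplicit false

open TensorProduct Pool.Agent.H519R3.RS Pool.Agent.Results.MP_b525bf_ag.UnipotentKernels

namespace Pool.Agent.Results.MP_3029eb_ag.UnipotentKernelsRelative

/-- Let `k` be a field of characteristic `p`, let `n ≤ m`, let `lv : Fin n → ℕ` be arbitrary, and let
`r i j`, `lv i ≤ lv j`, be natural numbers with `r i j ≤ r i l` if `lv i ≤ lv j ≤ lv l`. Let `A` be the
ring of the functions on the space of `n × m`-matrices over `k` which are invariant under the left
multiplications by the infinitesimal group scheme `H` of the matrices `g` with `g i j = 0` if
`lv j < lv i` and `g i j ^ (p ^ r i j) = δ i j`. Let `B` be a regular noetherian `k`-algebra and `E` a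
domain which is smooth over `B ⊗ A`. Then every local ring `R` of `E` admits local uniformization, at
all valuations. -/
theorem result (p : ℕ) [Fact p.Prime] (k : Type) [Field k] [CharP k p] (n m : ℕ)
    (hnm : n ≤ m) (lv : Fin n → ℕ) (r : Fin n → Fin n → ℕ)
    (h : ∀ i j l, lv i ≤ lv j → lv j ≤ lv l → r i j ≤ r i l)
    (B : Type) [CommRing B] [IsRegularRing B] [Algebra k B]
    (E : Type) [CommRing E] [IsDomain E]
    [Algebra (B ⊗[k] invariants k n m lv fun i j => p ^ r i j) E]
    [Algebra.Smooth (B ⊗[k] invariants k n m lv fun i j => p ^ r i j) E]
    (P : Ideal E) [P.IsPrime] (R : Type) [CommRing R] [IsLocalRing R] [Algebra E R]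
    [IsLocalization.AtPrime R P] : AdmitsLU R :=
  Pool.Agent.P8H16.LB.admitsLU_baseChange (k := k)
    (A := invariants k n m lv fun i j => p ^ r i j) (B := B)
    (Pool.Agent.Results.MP_b525bf_ag.UnipotentKernels.result p k n m hnm lv r h).2 P R

end Pool.Agent.Results.MP_3029eb_ag.UnipotentKernelsRelative
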